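import Mathlib
import Pool.Agent.H436R3.Can.NoMor

/-!
# A canonical algebraically integrable foliation that no morphism induces

The example: `X` is the blow-up of `(P^1)^3` at the points `(0, 0, 0)` and `(∞, ∞, ∞)`, a smooth
projective threefold, and `F` is given by the vector field `x ∂/∂x + y ∂/∂y + z ∂/∂z`, that is, `F`
is induced by the rational map `(x : y : z)` to the plane.
-/

set_option autoImplicit false

namespace Pool.Agent.Results.MP_eb6682_ag.NotInduced

open Pool.Agent.H436R3.Fol Pool.Agent.H436R3.Can

/-- There are a `ℚ`-factorial normal projective threefold `X` with `(X, 0)` klt and an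
algebraically integrable foliation `F` of rank one on `X` such that `(F, 0)` is canonical, but `F`
is not induced by any morphism from `X` to a normal variety. -/
theorem result : ∃ (K : Type) (_ : Field K) (_ : Algebra ℂ K) (X : ProjVar K)
    (T : Foliation K 3) (F : Foliation K 1),
    Algebra.trdeg ℂ K = 3 ∧ T.space = ⊤ ∧ IsQFactorial X ∧ IsKlt X T ∧
    IsAlgIntegrable F ∧ IsCanonical X F ∧
    ¬ ∃ (L : Type) (_ : Field L) (_ : Algebra ℂ L) (Y : Variety L) (ι : L →ₐ[ℂ] K),
      IsMorphism X Y ι ∧ Induces ι F :=
  ⟨K3, inferInstance, inferInstance, XX, folT, fR, trdeg_K3, folT_space, qfactorial_XX, klt_XX,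
    algIntegrable, canonical_XX, fun ⟨_, _, _, Y, ι, hm, hI⟩ => no_morphism ι Y hm hI⟩

end Pool.Agent.Results.MP_eb6682_ag.NotInduced
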